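import Mathlib
import Pool.Agent.Dil.All
import Pool.Agent.Bai.Fin

/-!
# MP_5ab805_an: the extension estimate for almost every anisotropic dilate of every function
-/

namespace Pool.Agent.Results.MP_5ab805_an.AlmostEveryDilate

open MeasureTheory Set
open scoped ENNReal NNReal

/-- The Fourier extension operator of the paraboloid:
`ext f ξ = ∫ exp(-i Φ(x)·ξ) f(x) dx` with `Φ(x) = (x₁, x₂, x₁² + x₂²)`. -/
noncomputable def ext (f : ℝ × ℝ → ℂ) (ξ : ℝ × ℝ × ℝ) : ℂ :=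
  ∫ x : ℝ × ℝ, Complex.exp (-(Complex.I *
    ((x.1 * ξ.1 + x.2 * ξ.2.1 + (x.1 ^ 2 + x.2 ^ 2) * ξ.2.2 : ℝ) : ℂ))) * f x

/-- The dilate `x ↦ f (x₁, θ x₂)`. -/
def dilate (θ : ℝ) (f : ℝ × ℝ → ℂ) (x : ℝ × ℝ) : ℂ := f (x.1, θ * x.2)

theorem ext_eq (f : ℝ × ℝ → ℂ) : ext f = Pool.Agent.Restr.E f := by
  funext ξ
  unfold ext Pool.Agent.Restr.E Pool.Agent.Restr.u
  refine integral_congr_ae (Filter.Eventually.of_forall fun x => ?_)
  simp only
  congr 4
  ring_nf

theorem dilate_eq (θ : ℝ) (f : ℝ × ℝ → ℂ) : dilate θ f = Pool.Agent.Dil.dil θ f := rfl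

theorem not_memLp_iff {q : ℝ} {f : ℝ × ℝ → ℂ} (hf : Measurable f) (θ : ℝ) :
    ¬ MemLp (ext (dilate θ f)) (ENNReal.ofReal q) volume ↔
      eLpNorm (Pool.Agent.Restr.E (Pool.Agent.Dil.dil θ f)) (ENNReal.ofReal q) volume = ⊤ := by
  have hm : Measurable (Pool.Agent.Dil.dil θ f) := by
    unfold Pool.Agent.Dil.dil
    exact hf.comp (by fun_prop)
  rw [ext_eq, dilate_eq]
  constructor
  · intro h
    by_contra hn
    exact h ⟨(Pool.Agent.Restr.measurable_E hm).aestronglyMeasurable, lt_top_iff_ne_top.2 hn⟩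
  · intro h hM
    exact hM.2.ne h

/-- The inequality of Q1 for the exponent `q`, when `U` is the disc `|x| ≤ 1/2`. -/
def ExtIneq (q : ℝ) : Prop :=
  ∃ C : ℝ≥0, ∀ f : ℝ × ℝ → ℂ, Measurable f → (∀ x : ℝ × ℝ, 1 / 4 < x.1 ^ 2 + x.2 ^ 2 → f x = 0) →
    MemLp f (ENNReal.ofReal q) volume →
    eLpNorm (ext f) (ENNReal.ofReal q) volume ≤ C * eLpNorm f (ENNReal.ofReal q) volume

theorem extIneq_iff {q : ℝ} (hq : 1 ≤ q) : ExtIneq q ↔ Pool.Agent.Bai.EI q (1 / 2) (1 / 2) := by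
  unfold ExtIneq
  simp only [ext_eq]
  exact Pool.Agent.Bai.disc_iff hq

/-- Let `3 < q < 4` and `q / (q - 2) < p ≤ q`. Part 1: for every exponent `α` above
`(4 - q) / (q - 2 q / p)` (which is less than 1) the `L^p → L^q` extension estimate holds on
average over the dilates `f (x₁, θ x₂)`, `1 ≤ θ ≤ 2`, with respect to every measure `μ` of
dimension `α`. Part 2: for every single `f` in `L^p` of compact support the dilates whose
extension is not in `L^q` form a set of Hausdorff dimension at most `(4 - q) / (q - 2 q / p)`.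
Part 3: the inequality of Q1 holds for `q` if and only if for every `f` in `L^q` of compact support
this set of dilates is countable, and if and only if it does not contain all positive rational
numbers. -/
theorem result (q p : ℝ) (hq : 3 < q) (hq4 : q < 4) (hp : q / (q - 2) < p) (hpq : p ≤ q) :
    (∀ α : ℝ, (4 - q) / (q - 2 * q / p) < α → α ≤ 1 → ∃ C : ℝ≥0, ∀ μ : Measure ℝ,
      μ (Icc 1 2)ᶜ = 0 → (∀ x r : ℝ, 0 < r → μ (Icc x (x + r)) ≤ ENNReal.ofReal (r ^ α)) →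
      ∀ f : ℝ × ℝ → ℂ, Measurable f → (∀ x : ℝ × ℝ, 1 / 4 < x.1 ^ 2 + x.2 ^ 2 → f x = 0) →
      MemLp f (ENNReal.ofReal p) volume →
      ∫⁻ θ, eLpNorm (ext (dilate θ f)) (ENNReal.ofReal q) volume ^ q ∂μ ≤
        C * eLpNorm f (ENNReal.ofReal p) volume ^ q) ∧
    (∀ f : ℝ × ℝ → ℂ, Measurable f → HasCompactSupport f →
      MemLp f (ENNReal.ofReal p) volume →
      dimH {θ : ℝ | 0 < θ ∧ ¬ MemLp (ext (dilate θ f)) (ENNReal.ofReal q) volume} ≤
        ENNReal.ofReal ((4 - q) / (q - 2 * q / p))) ∧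
    (ExtIneq q ↔ ∀ f : ℝ × ℝ → ℂ, Measurable f → HasCompactSupport f →
      MemLp f (ENNReal.ofReal q) volume →
      {θ : ℝ | 0 < θ ∧ ¬ MemLp (ext (dilate θ f)) (ENNReal.ofReal q) volume}.Countable) ∧
    (ExtIneq q ↔ ∀ f : ℝ × ℝ → ℂ, Measurable f → HasCompactSupport f →
      MemLp f (ENNReal.ofReal q) volume →
      ∃ r : ℚ, 0 < r ∧ MemLp (ext (dilate (r : ℝ) f)) (ENNReal.ofReal q) volume) := by
  have hq1 : 1 ≤ q := by linarith
  refine ⟨?_, ?_, ?_, ?_⟩
  · intro α hα hα1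
    obtain ⟨C, hC⟩ := Pool.Agent.Dil.frostman hq hq4 hp hpq hα hα1
    refine ⟨C, fun μ hμ hA f hf hs hN => ?_⟩
    simp only [ext_eq, dilate_eq]
    refine hC μ hμ hA f hf (fun x hx => hs x ?_) hN.2.ne
    by_contra hn
    apply hx
    have h1 : x.1 ^ 2 ≤ (1 / 2) ^ 2 := by nlinarith [sq_nonneg x.2]
    have h2 : x.2 ^ 2 ≤ (1 / 2) ^ 2 := by nlinarith [sq_nonneg x.1]
    have h3 := abs_le_of_sq_le_sq' h1 (by norm_num)
    have h4 := abs_le_of_sq_le_sq' h2 (by norm_num)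
    exact ⟨⟨by linarith [h3.1], h3.2⟩, ⟨by linarith [h4.1], h4.2⟩⟩
  · intro f hf hc hN
    have hB : Pool.Agent.Dil.BSupp f := by
      obtain ⟨R, hR⟩ := hc.isBounded.subset_closedBall 0
      refine ⟨2 * R ^ 2, fun x hx => ?_⟩
      by_contra hn
      have h1 : x ∈ Metric.closedBall (0 : ℝ × ℝ) R := hR (subset_tsupport f hn)
      rw [mem_closedBall_zero_iff, Prod.norm_def, Real.norm_eq_abs, Real.norm_eq_abs,
        max_le_iff] at h1
      have h2 : x.1 ^ 2 ≤ R ^ 2 := sq_le_sq.2 (h1.1.trans (le_abs_self R))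
      have h3 : x.2 ^ 2 ≤ R ^ 2 := sq_le_sq.2 (h1.2.trans (le_abs_self R))
      linarith
    refine le_trans (dimH_mono ?_) (Pool.Agent.Dil.a_DIM q p hq hq4 hp hpq f hf hB hN.2.ne)
    rintro θ ⟨h1, h2⟩
    exact ⟨h1, (not_memLp_iff hf θ).1 h2⟩
  · rw [extIneq_iff hq1, Pool.Agent.Bai.dil_iff hq1]
    refine forall_congr' fun f => forall_congr' fun hf => forall_congr' fun hc =>
      forall_congr' fun hN => ?_
    simp only [not_memLp_iff hf]
  · rw [extIneq_iff hq1, Pool.Agent.Bai.dil_rat_iff hq1]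
    refine forall_congr' fun f => forall_congr' fun hf => forall_congr' fun hc =>
      forall_congr' fun hN => exists_congr fun r => and_congr_right fun _ => ?_
    rw [← not_iff_not, not_memLp_iff hf, not_ne_iff]

end Pool.Agent.Results.MP_5ab805_an.AlmostEveryDilate
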