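import Mathlib
import Pool.Agent.Shr.All
import Pool.Agent.Bai.Fin

/-!
# MP_5ab805_an: the extension estimate for almost every continuous shear of every function
-/

namespace Pool.Agent.Results.MP_5ab805_an.BrownianShears

open MeasureTheory Set ProbabilityTheory
open scoped ENNReal NNReal

/-- The Fourier extension operator of the paraboloid:
`ext f ξ = ∫ exp(-i Φ(x)·ξ) f(x) dx` with `Φ(x) = (x₁, x₂, x₁² + x₂²)`. -/
noncomputable def ext (f : ℝ × ℝ → ℂ) (ξ : ℝ × ℝ × ℝ) : ℂ :=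
  ∫ x : ℝ × ℝ, Complex.exp (-(Complex.I *
    ((x.1 * ξ.1 + x.2 * ξ.2.1 + (x.1 ^ 2 + x.2 ^ 2) * ξ.2.2 : ℝ) : ℂ))) * f x

/-- The shear `x ↦ f (x₁, x₂ + φ x₁)`. -/
def shear (φ : ℝ → ℝ) (f : ℝ × ℝ → ℂ) (x : ℝ × ℝ) : ℂ := f (x.1, x.2 + φ x.1)

theorem ext_eq (f : ℝ × ℝ → ℂ) : ext f = Pool.Agent.Restr.E f := by
  funext ξ
  unfold ext Pool.Agent.Restr.E Pool.Agent.Restr.u
  refine integral_congr_ae (Filter.Eventually.of_forall fun x => ?_)
  simp only
  congr 4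
  ring_nf

theorem shear_eq (φ : ℝ → ℝ) (f : ℝ × ℝ → ℂ) : shear φ f = Pool.Agent.Shr.shr φ f := rfl

theorem not_memLp_iff {q : ℝ} {f : ℝ × ℝ → ℂ} (hf : Measurable f) (φ : C(ℝ, ℝ)) :
    ¬ MemLp (ext (shear φ f)) (ENNReal.ofReal q) volume ↔
      eLpNorm (Pool.Agent.Restr.E (Pool.Agent.Shr.shr φ f)) (ENNReal.ofReal q) volume = ⊤ := by
  have hm : Measurable (Pool.Agent.Shr.shr φ f) := by
    unfold Pool.Agent.Shr.shr
    exact hf.comp (measurable_fst.prodMk
      (measurable_snd.add (φ.continuous.measurable.comp measurable_fst)))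
  rw [ext_eq, shear_eq]
  constructor
  · intro h
    by_contra hn
    exact h ⟨(Pool.Agent.Restr.measurable_E hm).aestronglyMeasurable, lt_top_iff_ne_top.2 hn⟩
  · intro h hM
    exact hM.2.ne h

/-- The inequality of Q1 for the exponent `q`, when `U` is the disc `|x| ≤ 1/2`. -/
def ExtIneq (q : ℝ) : Prop :=
  ∃ C : ℝ≥0, ∀ f : ℝ × ℝ → ℂ, Measurable f → (∀ x : ℝ × ℝ, 1 / 4 < x.1 ^ 2 + x.2 ^ 2 → f x = 0) →
    MemLp f (ENNReal.ofReal q) volume →
    eLpNorm (ext f) (ENNReal.ofReal q) volume ≤ C * eLpNorm f (ENNReal.ofReal q) volume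

theorem extIneq_iff {q : ℝ} (hq : 1 ≤ q) : ExtIneq q ↔ Pool.Agent.Bai.EI q (1 / 2) (1 / 2) := by
  unfold ExtIneq
  simp only [ext_eq]
  exact Pool.Agent.Bai.disc_iff hq

/-- Part 1: there is one Borel probability measure `μ` on `C(ℝ, ℝ)`, carried for every `r < 1/2` by
the functions that are Hölder continuous of order `r`, such that for all `3 < q < 4`,
`q / (q - 2) < p` and every `f` in `L^p` of compact support the continuous `φ` for which
`ext (shear φ f)` is not in `L^q` form a Borel set all of whose translates have `μ`-measure zero,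
so that this set is Haar null in `C(ℝ, ℝ)`.
Part 2: the `L^p → L^q` extension estimate holds on average over the shears by every Brownian
motion with any measurable drift.
Part 3: the inequality of Q1 holds for `q` if and only if for every `f` in `L^q` of compact support
the set in Part 1 is meagre in `C(ℝ, ℝ)`. -/
theorem result :
    (∃ μ : @Measure C(ℝ, ℝ) (borel C(ℝ, ℝ)), @IsProbabilityMeasure _ (borel _) μ ∧
      (∀ r : ℝ≥0, r < 1 / 2 → ∀ᵐ φ : C(ℝ, ℝ) ∂μ, ∃ K : ℝ≥0, HolderWith K r φ) ∧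
      ∀ q p : ℝ, 3 < q → q < 4 → q / (q - 2) < p →
      ∀ f : ℝ × ℝ → ℂ, Measurable f → HasCompactSupport f → MemLp f (ENNReal.ofReal p) volume →
      @MeasurableSet C(ℝ, ℝ) (borel C(ℝ, ℝ))
        {φ : C(ℝ, ℝ) | ¬ MemLp (ext (shear φ f)) (ENNReal.ofReal q) volume} ∧
      ∀ g : C(ℝ, ℝ),
        μ {φ : C(ℝ, ℝ) | ¬ MemLp (ext (shear (g + φ) f)) (ENNReal.ofReal q) volume} = 0) ∧
    (∀ q p R : ℝ, 3 < q → q < 4 → q / (q - 2) < p → ∃ C : ℝ≥0,
      ∀ (Ω : Type) [MeasurableSpace Ω] (P : Measure Ω) (B : ℝ≥0 → Ω → ℝ), IsBrownianReal B P →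
      ∀ g : ℝ → ℝ, Measurable g →
      ∀ f : ℝ × ℝ → ℂ, Measurable f → (∀ x : ℝ × ℝ, f x ≠ 0 → 0 ≤ x.1 ∧ x.1 ≤ R ∧ |x.2| ≤ R) →
      MemLp f (ENNReal.ofReal p) volume →
      ∫⁻ ω, eLpNorm (ext (shear (fun x => g x + B x.toNNReal ω) f)) (ENNReal.ofReal q) volume ^ q
        ∂P ≤ C * eLpNorm f (ENNReal.ofReal p) volume ^ q) ∧
    (∀ q : ℝ, 3 < q → q < 4 → (ExtIneq q ↔
      ∀ f : ℝ × ℝ → ℂ, Measurable f → HasCompactSupport f → MemLp f (ENNReal.ofReal q) volume →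
      IsMeagre {φ : C(ℝ, ℝ) | ¬ MemLp (ext (shear φ f)) (ENNReal.ofReal q) volume})) := by
  refine ⟨?_, ?_, ?_⟩
  · obtain ⟨μ, h1, h2, h3⟩ := Pool.Agent.Shr.haar2
    refine ⟨μ, h1, h2, fun q p hq hq4 hp f hf hc hN => ⟨?_, fun g => ?_⟩⟩
    · have h := Pool.Agent.Shr.borel_exc (q := q) (by linarith) hf
      have e : {φ : C(ℝ, ℝ) | ¬ MemLp (ext (shear φ f)) (ENNReal.ofReal q) volume} =
          {φ : C(ℝ, ℝ) | eLpNorm (Pool.Agent.Restr.E (Pool.Agent.Shr.shr φ f))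
            (ENNReal.ofReal q) volume = ⊤} := by
        ext φ
        simp only [mem_ofPred_eq]
        exact not_memLp_iff hf φ
      rw [e]
      exact h
    · refine le_antisymm (le_trans (measure_mono ?_) (h3 q p hq hq4 hp f hf hc hN.2.ne g).le) bot_le
      intro φ hφ
      exact (not_memLp_iff hf (g + φ)).1 hφ
  · intro q p R hq hq4 hp
    obtain ⟨C, hC⟩ := Pool.Agent.Shr.avg q p (R + 1) hq hq4 hp
    refine ⟨C, fun Ω _ P B hB g hg f hf hs hN => ?_⟩
    simp only [ext_eq, shear_eq]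
    refine hC Ω P B hB g hg f hf (fun x hx => ?_) hN.2.ne
    obtain ⟨h1, h2, h3⟩ := hs x hx
    exact ⟨h1, by linarith, by linarith⟩
  · intro q hq _
    have hq1 : 1 ≤ q := by linarith
    rw [extIneq_iff hq1, Pool.Agent.Bai.shr_iff hq1]
    refine forall_congr' fun f => forall_congr' fun hf => forall_congr' fun hc =>
      forall_congr' fun hN => ?_
    simp only [not_memLp_iff hf]

end Pool.Agent.Results.MP_5ab805_an.BrownianShears
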