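import Mathlib
import Pool.Agent.TSL.All

/-!
# MP_5ab805_an: time slices

For every `f` in `L^p` and every `g` on the disc, and every real `c`, the product `ext f * ext g`
is controlled in `L^(q/2)(ℝ³)`, for every `q > 3`, by the norm of `f` in `L^p` times the norm of
`ext g` in `L^s` of the plane `ξ₃ = c`; `p = q` is allowed for every `s < q/2`. In the trilinear
form with a third function in `L²` the exponents are optimal.
-/

namespace Pool.Agent.Results.MP_5ab805_an.TimeSlice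

open MeasureTheory
open scoped ENNReal NNReal

/-- The Fourier extension operator of the paraboloid:
`ext f ξ = ∫ exp(-i Φ(x)·ξ) f(x) dx` with `Φ(x) = (x₁, x₂, x₁² + x₂²)`. -/
noncomputable def ext (f : ℝ × ℝ → ℂ) (ξ : ℝ × ℝ × ℝ) : ℂ :=
  ∫ x : ℝ × ℝ, Complex.exp (-(Complex.I *
    ((x.1 * ξ.1 + x.2 * ξ.2.1 + (x.1 ^ 2 + x.2 ^ 2) * ξ.2.2 : ℝ) : ℂ))) * f x

/-- A measurable function vanishing outside the disc of radius `1/2`. -/
def InDisc (f : ℝ × ℝ → ℂ) : Prop :=
  Measurable f ∧ ∀ x : ℝ × ℝ, 1 / 4 < x.1 ^ 2 + x.2 ^ 2 → f x = 0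

/-- The restriction of `ext g` to the plane `ξ₃ = c`. -/
noncomputable def slice (c : ℝ) (g : ℝ × ℝ → ℂ) (y : ℝ × ℝ) : ℂ := ext g (y.1, y.2, c)

/-- The bilinear inequality with exponents `q`, `s`, `p`: the constant `C` does not depend on
`c`, `f`, `g`. -/
def Bilinear (q s p : ℝ) : Prop := ∃ C : ℝ≥0, ∀ (c : ℝ) (f g : ℝ × ℝ → ℂ),
  InDisc f → MemLp f (ENNReal.ofReal p) volume → InDisc g →
  eLpNorm (fun ξ => ext f ξ * ext g ξ) (ENNReal.ofReal (q / 2)) volume ≤
    C * eLpNorm f (ENNReal.ofReal p) volume * eLpNorm (slice c g) (ENNReal.ofReal s) volume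

/-- The trilinear inequality with exponents `q`, `t`, `p`: the constant `C` does not depend on
`c`, `f`, `h`, `g`. -/
def Trilinear (q t p : ℝ) : Prop := ∃ C : ℝ≥0, ∀ (c : ℝ) (f h g : ℝ × ℝ → ℂ),
  InDisc f → MemLp f (ENNReal.ofReal p) volume → InDisc h → InDisc g →
  eLpNorm (fun ξ => ext f ξ * ext h ξ * ext g ξ) (ENNReal.ofReal (q / 3)) volume ≤
    C * eLpNorm f (ENNReal.ofReal p) volume * eLpNorm h 2 volume *
      eLpNorm (slice c g) (ENNReal.ofReal t) volume

theorem ext_eq (f : ℝ × ℝ → ℂ) : ext f = Pool.Agent.Restr.E f := by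
  funext ξ
  unfold ext Pool.Agent.Restr.E Pool.Agent.Restr.u
  refine integral_congr_ae (Filter.Eventually.of_forall fun x => ?_)
  simp only
  congr 4
  ring_nf

theorem bil {q s p : ℝ} (hq : 3 < q) (hq4 : q < 4) (hs : 1 ≤ s) (hsq : s < q / 2) (hp : 2 ≤ p)
    (hp1 : 1 / p < 1 - 4 / q + 1 / s) : Bilinear q s p := by
  obtain ⟨C, hC⟩ := TSL.top.1 (q / 2) s p (by linarith) (by linarith) hs hsq hp (by
    have e : 2 / (q / 2) = 4 / q := by
      field_simp
      norm_num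
    rw [e]
    exact hp1)
  refine ⟨C, fun c f g hf hf1 hg => ?_⟩
  have h1 := hC c f g hf hf1 hg
  unfold slice
  simp only [ext_eq]
  exact h1

theorem tri {q t p : ℝ} (hq : 3 < q) (hq4 : q < 4) (ht : 1 ≤ t) (htq : t < 4 * q / (12 - q))
    (hp : 2 ≤ p) (hp1 : 1 / p < 3 / 2 - 6 / q + 1 / t) : Trilinear q t p := by
  obtain ⟨C, hC⟩ := TSL.top.2 (q / 3) t p (by linarith) (by linarith) ht (by
      have h0 : 0 < 12 - q := by linarith
      have h1 : 1 / (q / 3) - 1 / 4 = 1 / (4 * q / (12 - q)) := by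
        field_simp
        ring
      rw [h1]
      exact one_div_lt_one_div_of_lt (by linarith) htq) hp (by
    have e : 2 / (q / 3) = 6 / q := by
      field_simp
      norm_num
    rw [e]
    exact hp1)
  refine ⟨C, fun c f h g hf hf1 hh hg => ?_⟩
  have h1 := hC c f g h hf hf1 hg hh
  unfold slice
  simp only [ext_eq]
  exact h1

/-- a function bounded by `1` on the disc -/
theorem of_one {f : ℝ × ℝ → ℂ} (hf : InDisc f) (hf1 : ∀ x, ‖f x‖ ≤ 1) {p : ℝ} (hp : 1 ≤ p) :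
    MemLp f (ENNReal.ofReal p) volume ∧ eLpNorm f (ENNReal.ofReal p) volume ≤ 1 := by
  have hp0 : 0 < p := by linarith
  have hle : eLpNorm f (ENNReal.ofReal p) volume ≤ 1 := by
    rw [eLpNorm_eq_lintegral_rpow_enorm_toReal (ne_of_gt (ENNReal.ofReal_pos.2 hp0))
      ENNReal.ofReal_ne_top, ENNReal.toReal_ofReal hp0.le]
    have h1 : ∫⁻ x, ‖f x‖ₑ ^ p ≤ 1 := by
      have h2 : ∀ x, ‖f x‖ₑ ^ p ≤ Pool.Agent.Restr.QQ.indicator (fun _ => (1 : ℝ≥0∞)) x := by
        intro x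
        by_cases hx : x ∈ Pool.Agent.Restr.QQ
        · rw [Set.indicator_of_mem hx]
          refine ENNReal.rpow_le_one ?_ hp0.le
          rw [← ofReal_norm, ← ENNReal.ofReal_one]
          exact ENNReal.ofReal_le_ofReal (hf1 x)
        · rw [Set.indicator_of_notMem hx]
          have h3 : f x = 0 := by
            refine hf.2 x ?_
            by_contra hcon
            push Not at hcon
            refine hx ?_
            have e1 : |x.1| ≤ 1 / 2 := abs_le_of_sq_le_sq (by nlinarith [sq_nonneg x.2])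
              (by norm_num)
            have e2 : |x.2| ≤ 1 / 2 := abs_le_of_sq_le_sq (by nlinarith [sq_nonneg x.1])
              (by norm_num)
            rw [abs_le] at e1 e2
            exact ⟨⟨by linarith [e1.1], by linarith [e1.2]⟩, by linarith [e2.1],
              by linarith [e2.2]⟩
          rw [h3, enorm_zero, ENNReal.zero_rpow_of_pos hp0]
      refine (lintegral_mono h2).trans ?_
      have h4 : MeasurableSet Pool.Agent.Restr.QQ := measurableSet_Icc.prod measurableSet_Icc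
      rw [lintegral_indicator_const h4, one_mul, Pool.Agent.Restr.vol_QQ]
    exact ENNReal.rpow_le_one h1 (by positivity)
  exact ⟨⟨hf.1.aestronglyMeasurable, hle.trans_lt ENNReal.one_lt_top⟩, hle⟩

theorem bil_nec {q s p : ℝ} (hq : 2 ≤ q) (hq4 : q < 4) (hs : 1 ≤ s) (hp : 1 ≤ p)
    (h : Bilinear q s p) : 4 / q - 3 / 4 ≤ 1 / s := by
  obtain ⟨C, hC⟩ := h
  have h1 := Wex.nec.1 (q / 2) s (by linarith) (by linarith) hs ⟨C, fun f g hf hf1 hg => by
    obtain ⟨a1, a2⟩ := of_one hf hf1 hp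
    have h2 := hC 0 f g hf a1 hg
    unfold slice at h2
    simp only [ext_eq] at h2
    refine h2.trans ?_
    calc (C : ℝ≥0∞) * eLpNorm f (ENNReal.ofReal p) volume * eLpNorm (fun y : ℝ × ℝ =>
          Pool.Agent.Restr.E g (y.1, y.2, 0)) (ENNReal.ofReal s) volume
        ≤ C * 1 * eLpNorm (fun y : ℝ × ℝ =>
          Pool.Agent.Restr.E g (y.1, y.2, 0)) (ENNReal.ofReal s) volume := by gcongr
      _ = _ := by rw [mul_one]⟩
  have e : 2 / (q / 2) = 4 / q := by
    field_simp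
    norm_num
  linarith

theorem tri_nec {q t p : ℝ} (hq : 3 ≤ q) (hq4 : q < 4) (ht : 1 ≤ t) (hp : 1 ≤ p)
    (h : Trilinear q t p) : 6 / q - 5 / 4 ≤ 1 / t := by
  obtain ⟨C, hC⟩ := h
  have h1 := Wex.nec.2 (q / 3) t (by linarith) (by linarith) ht ⟨C, fun f h g hf hf1 hh hg => by
    obtain ⟨a1, a2⟩ := of_one hf hf1 hp
    have h2 := hC 0 f h g hf a1 hh hg
    unfold slice at h2
    simp only [ext_eq] at h2
    refine h2.trans ?_
    calc (C : ℝ≥0∞) * eLpNorm f (ENNReal.ofReal p) volume * eLpNorm h 2 volume *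
          eLpNorm (fun y : ℝ × ℝ => Pool.Agent.Restr.E g (y.1, y.2, 0)) (ENNReal.ofReal t) volume
        ≤ C * 1 * eLpNorm h 2 volume * eLpNorm (fun y : ℝ × ℝ =>
          Pool.Agent.Restr.E g (y.1, y.2, 0)) (ENNReal.ofReal t) volume := by gcongr
      _ = _ := by ring⟩
  have e : 2 / (q / 3) = 6 / q := by
    field_simp
    norm_num
  linarith

theorem bil_p {q s p : ℝ} (hq : 2 ≤ q) (hs : 1 ≤ s) (hp : 1 ≤ p)
    (h : Bilinear q s p) : 1 / p ≤ 1 - 4 / q + 1 / s := by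
  obtain ⟨C, hC⟩ := h
  have h1 := TSL.knb.1 (q / 2) s p (by linarith) hs hp ⟨C, fun f g hf hf1 hg => by
    have h2 := hC 0 f g hf hf1 hg
    unfold slice at h2
    simpa only [ext_eq] using h2⟩
  have e : 2 / (q / 2) = 4 / q := by
    field_simp
    norm_num
  rw [e] at h1
  exact h1

theorem tri_p {q t p : ℝ} (hq : 3 ≤ q) (ht : 1 ≤ t) (hp : 1 ≤ p)
    (h : Trilinear q t p) : 1 / p ≤ 3 / 2 - 6 / q + 1 / t := by
  obtain ⟨C, hC⟩ := h
  have h1 := TSL.knb.2 (q / 3) t p (by linarith) ht hp ⟨C, fun f h g hf hf1 hh hg => by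
    have h2 := hC 0 f h g hf hf1 hh hg
    unfold slice at h2
    simpa only [ext_eq] using h2⟩
  have e : 2 / (q / 3) = 6 / q := by
    field_simp
    norm_num
  rw [e] at h1
  exact h1

theorem lim (a b r : ℝ) (ha : 0 < a) (h : ∀ q : ℝ, 3 < q → q < 4 → a / q - b ≤ r) :
    a / 3 - b ≤ r := by
  by_contra hc
  push Not at hc
  rcases lt_or_ge 0 (r + b) with hb | hb
  · have h3 : 3 < a / (r + b) := by
      rw [lt_div_iff₀ hb]
      linarith
    obtain ⟨q, hq3, hq⟩ := exists_between (lt_min h3 (by norm_num : (3 : ℝ) < 4))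
    have hq1 := (lt_min_iff.1 hq).1
    have hq2 := (lt_min_iff.1 hq).2
    have h4 := h q hq3 hq2
    rw [lt_div_iff₀ hb] at hq1
    have h5 : a / q ≤ r + b := by linarith
    rw [div_le_iff₀ (by linarith)] at h5
    linarith
  · have h4 := h (7 / 2) (by norm_num) (by norm_num)
    have : 0 < a / (7 / 2) := by positivity
    linarith

/-- Let `3 < q < 4`. (1) The bilinear inequality holds for `1 ≤ s < q/2`, `p ≥ 2`,
`1/p < 1 - 4/q + 1/s`. (2) The trilinear inequality holds for `1 ≤ t < 4q/(12-q)`, `p ≥ 2`,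
`1/p < 3/2 - 6/q + 1/t`. (3) The conditions on `p` are necessary, up to equality. (4) For real
`t, p ≥ 1` the trilinear inequality holds for all `3 < q < 4` if and only if `t ≤ 4/3` and
`1/p ≤ 1/t - 1/2`. (5) If for some `s, p ≥ 1` the bilinear inequality holds for all `3 < q < 4`,
then `s ≤ 12/7`. -/
theorem result :
    (∀ q s p : ℝ, 3 < q → q < 4 → 1 ≤ s → s < q / 2 → 2 ≤ p → 1 / p < 1 - 4 / q + 1 / s →
      Bilinear q s p) ∧
    (∀ q t p : ℝ, 3 < q → q < 4 → 1 ≤ t → t < 4 * q / (12 - q) → 2 ≤ p →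
      1 / p < 3 / 2 - 6 / q + 1 / t → Trilinear q t p) ∧
    (∀ q s p : ℝ, 3 < q → q < 4 → 1 ≤ s → 1 ≤ p →
      (Bilinear q s p → 1 / p ≤ 1 - 4 / q + 1 / s) ∧
      (Trilinear q s p → 1 / p ≤ 3 / 2 - 6 / q + 1 / s)) ∧
    (∀ t p : ℝ, 1 ≤ t → 1 ≤ p → ((∀ q : ℝ, 3 < q → q < 4 → Trilinear q t p) ↔
      t ≤ 4 / 3 ∧ 1 / p ≤ 1 / t - 1 / 2)) ∧
    ∀ s p : ℝ, 1 ≤ s → 1 ≤ p → (∀ q : ℝ, 3 < q → q < 4 → Bilinear q s p) → s ≤ 12 / 7 := by
  refine ⟨fun q s p hq hq4 hs hsq hp hp1 => bil hq hq4 hs hsq hp hp1,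
    fun q t p hq hq4 ht htq hp hp1 => tri hq hq4 ht htq hp hp1,
    fun q s p hq _ hs hp => ⟨fun h => bil_p (by linarith) hs hp h,
      fun h => tri_p hq.le hs hp h⟩,
    fun t p ht hp => ⟨fun h => ⟨?_, ?_⟩, fun h q hq hq4 => ?_⟩, fun s p hs hp h => ?_⟩
  · have h1 := lim 6 (5 / 4) (1 / t) (by norm_num)
      fun q hq hq4 => tri_nec hq.le hq4 ht hp (h q hq hq4)
    have h2 : 3 / 4 ≤ 1 / t := by linarith
    rw [le_div_iff₀ (by linarith)] at h2
    linarith
  · have h1 := lim 6 (3 / 2) (1 / t - 1 / p) (by norm_num) fun q hq hq4 => by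
      have h2 := tri_p hq.le ht hp (h q hq hq4)
      linarith
    linarith
  · obtain ⟨h1, h2⟩ := h
    have ht0 : 0 < t := by linarith
    have hp0 : 0 < p := by linarith
    have e1 : 1 / t ≤ 1 := by
      rw [div_le_one ht0]
      exact ht
    have hp2 : 2 ≤ p := by
      have h3 : 1 / p ≤ 1 / 2 := by linarith
      rw [div_le_iff₀ hp0] at h3
      linarith
    have h4 : 6 / q < 2 := by
      rw [div_lt_iff₀ (by linarith)]
      linarith
    refine tri hq hq4 ht (h1.trans_lt ?_) hp2 (by linarith)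
    rw [lt_div_iff₀ (by linarith)]
    linarith
  · have h1 := lim 4 (3 / 4) (1 / s) (by norm_num)
      fun q hq hq4 => bil_nec (by linarith) hq4 hs hp (h q hq hq4)
    have h2 : 7 / 12 ≤ 1 / s := by linarith
    rw [le_div_iff₀ (by linarith)] at h2
    linarith

end Pool.Agent.Results.MP_5ab805_an.TimeSlice
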