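import Mathlib
import Pool.Agent.TRS.All

/-!
# MP_5ab805_an: the trilinear form of the extension conjecture with two arbitrary functions

The conjecture says that `ext f₁ * ext f₂ * ext f₃` lies in `L^(q/3)` for all `q > 3` and all
`f₁, f₂, f₃` in `L^q` of the disc. Here this is proved, with `L²` norms of `f₁` and `f₂`, for
arbitrary `f₁` and `f₂` and for `f₃` in a class of functions which contains all products of two
bounded functions of one variable, multiplied by functions with half a derivative in one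
direction. Half a derivative is optimal: with fewer derivatives the inequality fails for some
`q > 3`.
-/

namespace Pool.Agent.Results.MP_5ab805_an.TrilinearForm

open MeasureTheory
open scoped ENNReal NNReal

/-- The Fourier extension operator of the paraboloid:
`ext f ξ = ∫ exp(-i Φ(x)·ξ) f(x) dx` with `Φ(x) = (x₁, x₂, x₁² + x₂²)`. -/
noncomputable def ext (f : ℝ × ℝ → ℂ) (ξ : ℝ × ℝ × ℝ) : ℂ :=
  ∫ x : ℝ × ℝ, Complex.exp (-(Complex.I *
    ((x.1 * ξ.1 + x.2 * ξ.2.1 + (x.1 ^ 2 + x.2 ^ 2) * ξ.2.2 : ℝ) : ℂ))) * f x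

/-- A measurable function vanishing outside the disc of radius `1/2`. -/
def InDisc (f : ℝ × ℝ → ℂ) : Prop :=
  Measurable f ∧ ∀ x : ℝ × ℝ, 1 / 4 < x.1 ^ 2 + x.2 ^ 2 → f x = 0

/-- The point `t e^⊥ + r e`, where `e^⊥ = (e₂, -e₁)`. -/
def line (e : ℝ × ℝ) (t r : ℝ) : ℝ × ℝ := (t * e.2 + r * e.1, -(t * e.1) + r * e.2)

/-- The product `a(x·e^⊥) b(x·e)`, where `e^⊥ = (e₂, -e₁)`. -/
def tensor (e : ℝ × ℝ) (a b : ℝ → ℂ) (x : ℝ × ℝ) : ℂ :=
  a (x.1 * e.2 - x.2 * e.1) * b (x.1 * e.1 + x.2 * e.2)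

/-- On almost every line parallel to `e` the translation by `h` changes `K` by at most
`M |h|^s` in `L²` of the line. -/
def Modulus (s : ℝ) (M : ℝ≥0) (e : ℝ × ℝ) (K : ℝ × ℝ → ℂ) : Prop :=
  ∀ᵐ t : ℝ, ∀ h : ℝ, ∫⁻ r, ‖K (line e t (r + h)) - K (line e t r)‖ₑ ^ 2 ≤
    (M : ℝ≥0∞) ^ 2 * ENNReal.ofReal (|h| ^ (2 * s))

theorem ext_eq (f : ℝ × ℝ → ℂ) : ext f = Pool.Agent.Restr.E f := by
  funext ξ
  unfold ext Pool.Agent.Restr.E Pool.Agent.Restr.u
  refine integral_congr_ae (Filter.Eventually.of_forall fun x => ?_)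
  simp only
  congr 4
  ring_nf

/-- The inequality `‖ext f₁ · ext f₂ · ext g‖_(q/3) ≤ C M ‖f₁‖₂ ‖f₂‖₂`, with `C = C(q, s)`, for
all `f₁, f₂` living in the disc and all `g(x) = a(x·e^⊥) b(x·e) K(x)`, where `e` is a unit
vector, `a, b` are arbitrary measurable functions of one variable bounded by one, and `K`, bounded
by one and living in the disc, has modulus `M |h|^s` in `L²` of almost every line parallel to
`e`. -/
def Inequality (q s : ℝ) : Prop := ∃ C : ℝ≥0,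
    ∀ (e : ℝ × ℝ) (a b : ℝ → ℂ) (f₁ f₂ K : ℝ × ℝ → ℂ) (M : ℝ≥0), e.1 ^ 2 + e.2 ^ 2 = 1 →
    Measurable a → Measurable b → (∀ r, ‖a r‖ ≤ 1) → (∀ r, ‖b r‖ ≤ 1) →
    InDisc f₁ → InDisc f₂ → InDisc K → (∀ x, ‖K x‖ ≤ 1) → 1 ≤ M → Modulus s M e K →
    eLpNorm (fun ξ => ext f₁ ξ * ext f₂ ξ * ext (fun x => tensor e a b x * K x) ξ)
      (ENNReal.ofReal (q / 3)) volume ≤ C * M * eLpNorm f₁ 2 volume * eLpNorm f₂ 2 volume

theorem inequality_iff (q s : ℝ) : Inequality q s ↔ TRS.Tri q s := by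
  unfold Inequality TRS.Tri
  simp only [ext_eq]
  rfl

/-- The inequality holds for `s > 3 (4 - q) / (2 q)`, it fails for `s < (24 - 7 q) / (2 q)`, and
it holds for all `3 < q < 4` if and only if `s ≥ 1/2`. -/
theorem result :
    (∀ q s : ℝ, 3 < q → q < 4 → 3 * (4 - q) / (2 * q) < s → Inequality q s) ∧
    (∀ q s : ℝ, 3 < q → q < 4 → 0 ≤ s → Inequality q s → (24 - 7 * q) / (2 * q) ≤ s) ∧
    ∀ s : ℝ, 0 ≤ s → ((∀ q : ℝ, 3 < q → q < 4 → Inequality q s) ↔ 1 / 2 ≤ s) := by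
  simp only [inequality_iff]
  exact ⟨fun q s h1 h2 h3 => TRS.suf h1 h2 h3, fun q s h1 _ h3 h4 => TRS.nec h1 h3 h4,
    fun s hs => TRS.iff hs⟩

end Pool.Agent.Results.MP_5ab805_an.TrilinearForm
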